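import Pool.Agent.H53.C9.Univ

/-!
MP_c9b280_co, Q1 (and a bound for Q2) for `k = 3`.

For every bipartite graph `H` and all large `n`, the maximum number of copies of `H` in an
`n`-vertex triangle-free graph is attained by a blow-up of a fixed triangle-free graph `G₀`, which
depends only on the number `h` of vertices of `H` and has `M * 2 ^ M` vertices with
`M = 2 ^ (2 ^ (43 * h ^ 5))`.  If some vertex of `H` has two neighbours, then every extremal graph
is such a blow-up.

Outline: `Pool.Agent.H53.C9` proves that in an extremal graph (a) every vertex set receiving more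
than the optimal first order count contains many edges (add new vertices), (b) neighbourhoods of
adjacent vertices span many edges, hence every edge lies in many copies of every bipartite pattern,
(c) nonadjacent vertices with different neighbourhoods differ a lot (second order
symmetrization), (d) hence any two different neighbourhoods span many edges, and (e) by random
sampling there is only a bounded number of such independent sets.
-/

open Finset

namespace Pool.Agent.Results.MP_c9b280_co.TriangleFreeBlowup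

open Pool.Agent.H53.C9

/-- `G` is an extremal graph for `ex(n, H, K₃)`, `n` being the number of vertices of `G`: it is
triangle-free, and no triangle-free graph on the same vertices has more copies of `H` (subgraphs
isomorphic to `H`, not necessarily induced) -/
def IsExtremal {V W : Type*} [Fintype V] (H : SimpleGraph W) (G : SimpleGraph V) : Prop :=
  G.CliqueFree 3 ∧ ∀ G' : SimpleGraph V, G'.CliqueFree 3 → G'.copyCount H ≤ G.copyCount H

/-- the number of indices used for graphs `H` with `h` vertices -/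
def M (h : ℕ) : ℕ := 2 ^ (2 ^ (43 * h ^ 5))

theorem M_ge (h : ℕ) : 2 ≤ M h := by
  unfold M
  calc 2 = 2 ^ 1 := by norm_num
    _ ≤ _ := Nat.pow_le_pow_right (by norm_num) Nat.one_le_two_pow

theorem extremal_ext {V W : Type*} [Fintype V] [Fintype W] [DecidableEq V] [DecidableEq W]
    (H : SimpleGraph W) (G : SimpleGraph V) (h : IsExtremal H G) : Ext H G := by
  refine ⟨(TF_iff G).2 h.1, fun G' hG' => ?_⟩
  rw [copy_le_iff]
  exact h.2 G' ((TF_iff G').1 hG')

theorem exists_extremal {V W : Type*} [Fintype V] (H : SimpleGraph W) :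
    ∃ G : SimpleGraph V, IsExtremal H G := by
  classical
  obtain ⟨G, hG, hmax⟩ := Finset.exists_max_image
    (univ.filter (fun G : SimpleGraph V => G.CliqueFree 3)) (fun G => G.copyCount H)
    ⟨⊥, by simp [SimpleGraph.cliqueFree_bot (by norm_num : 2 ≤ 3)]⟩
  simp only [mem_filter, mem_univ, true_and] at hG hmax
  exact ⟨G, hG, hmax⟩

theorem cherry_case {W : Type} [Fintype W] (H : SimpleGraph W) (hH : H.Colorable 2)
    (hch : ∃ v a b, a ≠ b ∧ H.Adj v a ∧ H.Adj v b) :
    ∃ n₀ : ℕ, ∀ n : ℕ, n₀ ≤ n → ∀ G : SimpleGraph (Fin n), IsExtremal H G →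
      ∃ Γ : SimpleGraph (Fin (M (Fintype.card W))), TF Γ ∧ IsBlowup G Γ := by
  classical
  obtain ⟨c₀, u₀, v₀, huv, hu, hv⟩ := hch
  obtain ⟨C⟩ := hH
  let col : W → Bool := fun a => decide (C a = 0)
  have hcol : ∀ a b, H.Adj a b → col a ≠ col b := by
    intro a b hab
    have h1 := C.valid hab
    simp only [col, ne_eq, decide_eq_decide]
    intro h2
    apply h1
    revert h2
    generalize C a = i
    generalize C b = j
    revert i j
    decide
  have h3 : 3 ≤ Fintype.card W := by
    have h1 : ({c₀, u₀, v₀} : Finset W).card = 3 := by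
      rw [Finset.card_eq_three]
      exact ⟨c₀, u₀, v₀, hu.ne, hv.ne, huv, rfl⟩
    rw [← h1]
    exact Finset.card_le_univ _
  obtain ⟨n₀, hn₀⟩ := big_exists (Fintype.card W) ((1/2) ^ Fintype.card W)
  refine ⟨max n₀ 1, fun n hn G hG => ?_⟩
  have hnpos : 0 < n := by omega
  have : Nonempty (Fin n) := ⟨⟨0, hnpos⟩⟩
  have hE := extremal_ext H G hG
  have hbig : Big (Fintype.card W) ((1/2) ^ Fintype.card W) (Fintype.card (Fin n)) := by
    rw [Fintype.card_fin]; exact hn₀ n (by omega)
  have hfew := hE.few col hcol u₀ v₀ c₀ huv hu.symm hv.symm ((1/2) ^ Fintype.card W)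
    (by positivity) (T_ge H col hcol) hbig _ (tau_ok _ h3)
  apply blowup_of_few G hE.tf
  refine hfew.trans ?_
  unfold M
  exact Nat.pow_le_pow_right (by norm_num) (tau_le _ h3)

theorem matching_case {W : Type} [Fintype W] (H : SimpleGraph W)
    (hch : ¬ ∃ v a b, a ≠ b ∧ H.Adj v a ∧ H.Adj v b) (n : ℕ) (hn : 0 < n) :
    IsExtremal H (bip n) := by
  classical
  refine ⟨(TF_iff _).1 (bip_TF n), fun G' hG' => ?_⟩
  rw [← copy_le_iff]
  apply match_opt H _ n hn G' ((TF_iff G').2 hG')
  intro a b c hab hac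
  by_contra hbc
  exact hch ⟨a, b, c, hbc, hab, hac⟩

/-- Q1 for `k = 3`, with a bound on the number of vertices of `G₀` -/
theorem result (h : ℕ) :
    ∃ G₀ : SimpleGraph (Fin (M h * 2 ^ M h)), G₀.CliqueFree 3 ∧
      ∀ (W : Type) [Fintype W] (H : SimpleGraph W), Fintype.card W = h → H.Colorable 2 →
        ∃ n₀ : ℕ, ∀ n : ℕ, n₀ ≤ n →
          (∃ G : SimpleGraph (Fin n), IsExtremal H G ∧ IsBlowup G G₀) ∧
          ((∃ v a b, a ≠ b ∧ H.Adj v a ∧ H.Adj v b) →
            ∀ G : SimpleGraph (Fin n), IsExtremal H G → IsBlowup G G₀) := by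
  obtain ⟨G₀, hG₀, huniv⟩ := exists_univ (M h)
  refine ⟨G₀, (TF_iff _).1 hG₀, ?_⟩
  intro W _ H hW hH
  subst hW
  by_cases hch : ∃ v a b, a ≠ b ∧ H.Adj v a ∧ H.Adj v b
  · obtain ⟨n₀, hn₀⟩ := cherry_case H hH hch
    refine ⟨n₀, fun n hn => ?_⟩
    have hall : ∀ G : SimpleGraph (Fin n), IsExtremal H G → IsBlowup G G₀ := by
      intro G hG
      obtain ⟨Γ, hΓ, hb⟩ := hn₀ n hn G hG
      exact huniv _ G Γ hΓ hb
    refine ⟨?_, fun _ => hall⟩
    obtain ⟨G, hG⟩ := exists_extremal (V := Fin n) H
    exact ⟨G, hG, hall G hG⟩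
  · refine ⟨1, fun n hn => ⟨?_, fun h => absurd h hch⟩⟩
    obtain ⟨Γ, hΓ, hb⟩ := bip_blowup n (M (Fintype.card W)) (M_ge _)
    exact ⟨bip n, matching_case H hch n hn, huniv _ _ Γ hΓ hb⟩

end Pool.Agent.Results.MP_c9b280_co.TriangleFreeBlowup
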